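import Pool.Agent.H70.RW.T

/-!
# STR: the strings of the positions (adapted from Pool.Agent.H46.RK.STR of helper46)
-/

set_option autoImplicit false

namespace Pool.Agent.H33.RW

open Pool.Agent.H6.NB Pool.Agent.H70.OQ Pool.Agent.H78.XQ Pool.Agent.H70.RW
open Pool.Agent.H70.RK (flat)
open Pool.Agent.H70.RC (arrp)
open Pool.Agent.H70.EH (pos)

theorem hb_length (hCOD : Pool.Agent.H6.NB.T_COD) (p : Bx) :
    (hb p).length = 2 * p.1.length + 2 * ((p.2.1 : ℕ) + ((p.2.2 : ℕ) + 1)) +
      16 * (p.1.length + 20) ^ 3 + 2 := by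
  unfold hb hmw
  rw [hCOD.2]
  simp

theorem hb_pos (hCOD : Pool.Agent.H6.NB.T_COD) (p : Bx) : 0 < (hb p).length := by
  rw [hb_length hCOD]
  omega

theorem rep_inj (i i' j j' : ℕ) (h : List.replicate i true ++ false :: List.replicate j true =
    List.replicate i' true ++ false :: List.replicate j' true) : i = i' ∧ j = j' := by
  induction i generalizing i' with
  | zero =>
    cases i' with
    | zero =>
      simp only [List.replicate_zero, List.nil_append, List.cons.injEq, true_and] at h
      have h1 := congrArg List.length h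
      simp only [List.length_replicate] at h1
      exact ⟨rfl, h1⟩
    | succ i' =>
      exfalso
      simp only [List.replicate_zero, List.nil_append, List.replicate_succ, List.cons_append] at h
      exact absurd (List.cons.inj h).1 (by simp)
  | succ i ih =>
    cases i' with
    | zero =>
      exfalso
      simp only [List.replicate_zero, List.nil_append, List.replicate_succ, List.cons_append] at h
      exact absurd (List.cons.inj h).1 (by simp)
    | succ i' =>
      simp only [List.replicate_succ, List.cons_append] at h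
      obtain ⟨h1, h2⟩ := ih i' (List.cons.inj h).2
      exact ⟨by rw [h1], h2⟩

theorem hb_inj (hCOD : Pool.Agent.H6.NB.T_COD) : Function.Injective hb := by
  rintro ⟨s, i, j⟩ ⟨s', i', j'⟩ h
  unfold hb hmw at h
  obtain ⟨h1, h2, -⟩ := hCOD.1 _ _ _ _ _ _ h
  simp only at h1 h2
  subst h1
  obtain ⟨h3, h4⟩ := rep_inj _ _ _ _ h2
  have h5 : i = i' := Fin.ext h3
  have h6 : j = j' := Fin.ext h4
  rw [h5, h6]

theorem code_true (x y : List Bool) (i : ℕ) (h : 0 < x.length) : ∃ w, code x y i = true :: w := by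
  cases x with
  | nil => simp at h
  | cons b l => exact ⟨b :: (dbl l ++ false :: (dbl y ++ false :: List.replicate i true)), rfl⟩

theorem arrp_true (s a : List Bool) : ∃ w, arrp s a = true :: w := by
  unfold arrp
  exact code_true _ _ _ (by simp)

theorem flat_inj {k m : ℕ} (a a' : Fin k → Fin m → Bool) (h : flat a = flat a') : a = a' := by
  have h1 : (List.ofFn fun i => List.ofFn (a i)) = (List.ofFn fun i => List.ofFn (a' i)) := by
    rw [List.eq_iff_flatten_eq]
    refine ⟨h, ?_⟩
    rw [List.map_ofFn, List.map_ofFn]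
    apply congrArg List.ofFn
    funext i
    simp
  have h2 := List.ofFn_injective h1
  funext i
  exact List.ofFn_injective (congrFun h2 i)

theorem str_injective (hCOD : Pool.Agent.H6.NB.T_COD) :
    Function.Injective str := by
  rintro (⟨n, x⟩ | ⟨s, a⟩ | ⟨p, u, b, v⟩ | ⟨p, z⟩) (⟨n', x'⟩ | ⟨s', a'⟩ | ⟨p', u', b', v'⟩ | ⟨p', z'⟩) h
  · simp only [str] at h
    have h1 := (List.cons.inj h).2
    have h2 := congrArg List.length h1
    simp only [List.length_ofFn] at h2
    subst h2
    have h3 := List.ofFn_injective h1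
    rw [h3]
  · exfalso
    simp only [str] at h
    obtain ⟨w, hw⟩ := arrp_true s' (flat a')
    rw [hw] at h
    exact absurd (List.cons.inj h).1 (by simp)
  · exfalso
    simp only [str, pos] at h
    obtain ⟨w, hw⟩ := code_true (hb p') (List.ofFn u' ++ List.ofFn v') b'.toNat (hb_pos hCOD p')
    rw [hw] at h
    exact absurd (List.cons.inj h).1 (by simp)
  · exfalso
    simp only [str, wps] at h
    obtain ⟨w, hw⟩ := code_true (hb p') (List.ofFn z') 2 (hb_pos hCOD p')
    rw [hw] at h
    exact absurd (List.cons.inj h).1 (by simp)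
  · exfalso
    simp only [str] at h
    obtain ⟨w, hw⟩ := arrp_true s (flat a)
    rw [hw] at h
    exact absurd (List.cons.inj h).1 (by simp)
  · simp only [str, arrp] at h
    obtain ⟨h1, h2, -⟩ := hCOD.1 _ _ _ _ _ _ h
    have h3 := (List.cons.inj h1).2
    subst h3
    have h4 := flat_inj _ _ h2
    rw [h4]
  · exfalso
    simp only [str, arrp, pos] at h
    obtain ⟨-, -, h3⟩ := hCOD.1 _ _ _ _ _ _ h
    have := Bool.toNat_le b'
    omega
  · exfalso
    simp only [str, arrp, wps] at h
    obtain ⟨-, -, h3⟩ := hCOD.1 _ _ _ _ _ _ h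
    omega
  · exfalso
    simp only [str, pos] at h
    obtain ⟨w, hw⟩ := code_true (hb p) (List.ofFn u ++ List.ofFn v) b.toNat (hb_pos hCOD p)
    rw [hw] at h
    exact absurd (List.cons.inj h).1 (by simp)
  · exfalso
    simp only [str, arrp, pos] at h
    obtain ⟨-, -, h3⟩ := hCOD.1 _ _ _ _ _ _ h
    have := Bool.toNat_le b
    omega
  · simp only [str, pos] at h
    obtain ⟨h1, h2, h3⟩ := hCOD.1 _ _ _ _ _ _ h
    have h4 := hb_inj hCOD h1
    subst h4
    have h5 : b = b' := by
      revert h3
      cases b <;> cases b' <;> simp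
    subst h5
    have h6 := List.append_inj h2 (by simp)
    have h7 := List.ofFn_injective h6.1
    have h8 := List.ofFn_injective h6.2
    rw [h7, h8]
  · exfalso
    simp only [str, wps, pos] at h
    obtain ⟨-, -, h3⟩ := hCOD.1 _ _ _ _ _ _ h
    have := Bool.toNat_le b
    omega
  · exfalso
    simp only [str, wps] at h
    obtain ⟨w, hw⟩ := code_true (hb p) (List.ofFn z) 2 (hb_pos hCOD p)
    rw [hw] at h
    exact absurd (List.cons.inj h).1 (by simp)
  · exfalso
    simp only [str, arrp, wps] at h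
    obtain ⟨-, -, h3⟩ := hCOD.1 _ _ _ _ _ _ h
    omega
  · exfalso
    simp only [str, wps, pos] at h
    obtain ⟨-, -, h3⟩ := hCOD.1 _ _ _ _ _ _ h
    have := Bool.toNat_le b'
    omega
  · simp only [str, wps] at h
    obtain ⟨h1, h2, -⟩ := hCOD.1 _ _ _ _ _ _ h
    have h4 := hb_inj hCOD h1
    subst h4
    have h5 := List.ofFn_injective h2
    rw [h5]

theorem lvl_lt (hCOD : Pool.Agent.H6.NB.T_COD) (p : Ps) : lvl p < (str p).length := by
  rcases p with ⟨n, x⟩ | ⟨s, a⟩ | ⟨p, u, b, v⟩ | ⟨p, z⟩
  · simp [lvl, str]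
  · simp only [lvl, str, arrp]
    rw [hCOD.2]
    simp only [List.length_cons]
    omega
  · simp only [lvl, str, pos]
    have h1 := hb_length hCOD p
    rw [hCOD.2]
    omega
  · simp only [lvl, str, wps]
    have h1 := hb_length hCOD p
    rw [hCOD.2]
    omega

theorem hb_sz (hCOD : Pool.Agent.H6.NB.T_COD) (p : Bx) :
    Sz (p.1.length + 20) (hb p).length (qs (hb p)) (rns (hb p)) (wln (hb p)) := by
  have h1 := hb_length hCOD p
  have h2 := p.2.2.2
  have h2' := p.2.1.2
  refine ⟨by omega, by omega, ?_, rfl, rfl, rfl⟩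
  rw [h1]
  have h3 : 16 * (p.1.length + 20 + 1) ^ 3 = 16 * (p.1.length + 20) ^ 3 +
      16 * (3 * (p.1.length + 20) ^ 2 + 3 * (p.1.length + 20) + 1) := by ring
  rw [h3]
  have h4 : 0 ≤ (p.1.length + 20) ^ 2 := Nat.zero_le _
  omega

theorem pf_STR (hCOD : Pool.Agent.H6.NB.T_COD) : Pool.Agent.H70.RW.T_STR := by
  refine ⟨str_injective hCOD, lvl_lt hCOD, ?_, ?_, hb_sz hCOD⟩
  · intro s a
    unfold arrp
    rw [hCOD.2]
    simp only [List.length_cons]
    omega
  · intro s s' a a' h
    unfold arrp at h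
    obtain ⟨h1, -, -⟩ := hCOD.1 _ _ _ _ _ _ h
    exact (List.cons.inj h1).2

end Pool.Agent.H33.RW
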